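import Pool.Agent.P8H57.FF.Twe

/-!
# Project FF: package TWG
-/

set_option autoImplicit false

namespace Pool.Agent.P8H57.FF

open NumberField IsDedekindDomain WithZero
open Pool.Agent.P8H82.FF Pool.Agent.P8H82.JG
open Pool.Agent.P8H71.WS.GLO Pool.Agent.P8H71.WS.UNI Pool.Agent.P8H71.WS.ORD Pool.Agent.P8H52.JG

variable {K : Type} [Field K] [NumberField K]

/-- an element all of whose values are even -/
theorem even_form (σ τ : K →+* ℝ) (hG : Gold K σ τ) (φ : 𝓞 K) (h : φ ^ 2 = φ + 1)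
    (h2 : σ φ = (1 + √5) / 2) (h3 : τ φ = (1 - √5) / 2) (δ : K) (hδ : δ ≠ 0)
    (hall : ∀ v : HeightOneSpectrum (𝓞 K), ∃ x : K, x ≠ 0 ∧ v.valuation K (x ^ 2 * δ) = 1) :
    ∃ (e : 𝓞 K) (g : K), (e = 1 ∨ e = -1 ∨ e = φ ∨ e = -φ) ∧ g ≠ 0 ∧ δ = (e : K) * g ^ 2 := by
  obtain ⟨s5, hs5⟩ := hG.five
  have := Pool.Agent.Y382.Gold.pid hG.rank hs5
  obtain ⟨a, b, hb, hab⟩ := IsFractionRing.div_surjective (A := 𝓞 K) δ
  have hb0 : b ≠ 0 := nonZeroDivisors.ne_zero hb
  have hbK : algebraMap (𝓞 K) K b ≠ 0 := coe_ne hb0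
  have ha0 : a ≠ 0 := by
    rintro rfl
    rw [map_zero, zero_div] at hab
    exact hδ hab.symm
  have hc0 : a * b ≠ 0 := mul_ne_zero ha0 hb0
  have hcδ : ((a * b : 𝓞 K) : K) = δ * (algebraMap (𝓞 K) K b) ^ 2 := by
    rw [← hab]
    have : ((a * b : 𝓞 K) : K) = algebraMap (𝓞 K) K a * algebraMap (𝓞 K) K b := by simp
    rw [this]
    field_simp
  obtain ⟨u, z, hu⟩ := sq_of_even (a * b) hc0 (by
    intro v
    obtain ⟨x, hx0, hx⟩ := hall v
    refine ⟨x / algebraMap (𝓞 K) K b, div_ne_zero hx0 hbK, ?_⟩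
    rw [hcδ]
    have e : (x / (algebraMap (𝓞 K) K) b) ^ 2 * (δ * (algebraMap (𝓞 K) K) b ^ 2) = x ^ 2 * δ := by
      field_simp
    rw [e]
    exact hx)
  have hz0 : z ≠ 0 := by
    rintro rfl
    apply hc0
    rw [hu]; ring
  have hzK : (z : K) ≠ 0 := coe_ne hz0
  have hδu : δ = ((u : 𝓞 K) : K) * ((z : K) / algebraMap (𝓞 K) K b) ^ 2 := by
    have : ((a * b : 𝓞 K) : K) = ((u : 𝓞 K) : K) * (z : K) ^ 2 := by rw [hu]; simp
    rw [this] at hcδ
    rw [div_pow, mul_div_assoc', hcδ]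
    field_simp
  -- the unit
  obtain ⟨k, hk⟩ := unit_rep σ τ hG φ h h2 h3 u
  have hform : ∃ (e : 𝓞 K) (w : (𝓞 K)ˣ), (e = 1 ∨ e = -1 ∨ e = φ ∨ e = -φ) ∧
      (u : 𝓞 K) = e * (w : 𝓞 K) ^ 2 := by
    rcases Int.even_or_odd' k with ⟨j, hj | hj⟩
    · rcases hk with hk | hk
      · refine ⟨1, phiU φ h ^ j, Or.inl rfl, ?_⟩
        rw [hk, hj, one_mul, ← Units.val_pow_eq_pow_val, ← zpow_natCast, ← zpow_mul]
        congr 2
        push_cast; ring
      · refine ⟨-1, phiU φ h ^ j, Or.inr (Or.inl rfl), ?_⟩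
        rw [hk, hj, Units.val_neg, neg_one_mul, ← Units.val_pow_eq_pow_val, ← zpow_natCast,
          ← zpow_mul]
        congr 3
        push_cast; ring
    · have hφ : phiU φ h ^ (2 * j + 1) = phiU φ h * (phiU φ h ^ j) ^ 2 := by
        rw [← zpow_natCast (phiU φ h ^ j), ← zpow_mul, zpow_add, zpow_one, mul_comm]
        congr 2
        push_cast; ring
      rcases hk with hk | hk
      · refine ⟨φ, phiU φ h ^ j, Or.inr (Or.inr (Or.inl rfl)), ?_⟩
        rw [hk, hj, hφ, Units.val_mul, Units.val_pow_eq_pow_val]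
        rfl
      · refine ⟨-φ, phiU φ h ^ j, Or.inr (Or.inr (Or.inr rfl)), ?_⟩
        rw [hk, hj, hφ, Units.val_neg, Units.val_mul, Units.val_pow_eq_pow_val, neg_mul]
        rfl
  obtain ⟨e, w, he, hue⟩ := hform
  have hwK : ((w : 𝓞 K) : K) ≠ 0 := coe_ne w.ne_zero
  have hg0 : ((w : 𝓞 K) : K) * ((z : K) / algebraMap (𝓞 K) K b) ≠ 0 :=
    mul_ne_zero hwK (div_ne_zero hzK hbK)
  refine ⟨e, _, he, hg0, ?_⟩
  rw [hδu, hue]
  have : ((e * (w : 𝓞 K) ^ 2 : 𝓞 K) : K) = (e : K) * ((w : 𝓞 K) : K) ^ 2 := by simp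
  rw [this]
  ring

omit [NumberField K] in
/-- the representative of the class of `u` -/
theorem rp_mk (u : Kˣ) : ∃ z : K, z ≠ 0 ∧ rp (QuotientGroup.mk u : Tw K) = u * z ^ 2 := by
  have h : (QuotientGroup.mk u : Tw K) = QuotientGroup.mk (Quotient.out (QuotientGroup.mk u : Tw K)) :=
    (Quotient.out_eq _).symm
  rw [QuotientGroup.eq] at h
  obtain ⟨z, hz⟩ := h
  refine ⟨(z : K), z.ne_zero, ?_⟩
  have h1 : (Quotient.out (QuotientGroup.mk u : Tw K) : Kˣ) = u * z ^ 2 := by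
    rw [show z ^ 2 = u⁻¹ * Quotient.out (QuotientGroup.mk u : Tw K) from hz]
    group
  show ((Quotient.out (QuotientGroup.mk u : Tw K) : Kˣ) : K) = _
  rw [h1]
  push_cast
  rfl

omit [NumberField K] in
theorem mk_eq_of (u v : Kˣ) (g : K) (hg : g ≠ 0) (h : (v : K) = u * g ^ 2) :
    (QuotientGroup.mk u : Tw K) = QuotientGroup.mk v := by
  rw [QuotientGroup.eq]
  refine ⟨Units.mk0 g hg, ?_⟩
  show (Units.mk0 g hg) ^ 2 = u⁻¹ * v
  rw [eq_inv_mul_iff_mul_eq]
  ext
  push_cast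
  rw [Units.val_mk0, h]

/-- package TWG -/
theorem twg : S_TWG := by
  classical
  intro K _ _ σ τ hG
  obtain ⟨φ, h, h2, h3, hrep, huniq⟩ := int_thm K σ τ hG
  obtain ⟨P, hP, -⟩ := Pool.Agent.P8H20.WS.two K σ τ hG
  have h5 := sqrt5_sq
  have h5p := sqrt5_pos
  have h52 := two_lt
  -- the units of the field
  have hφK : (φ : K) ≠ 0 := coe_ne (phiU φ h).ne_zero
  let p : Kˣ := Units.mk0 (φ : K) hφK
  let t : Kˣ := Units.mk0 (2 : K) two_ne_zero
  let u : Fin 2 × Fin 2 × Fin 2 → Kˣ := fun x => (-1) ^ (x.1 : ℕ) * p ^ (x.2.1 : ℕ) * t ^ (x.2.2 : ℕ)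
  have hu : ∀ x, (u x : K) = (-1) ^ (x.1 : ℕ) * (φ : K) ^ (x.2.1 : ℕ) * 2 ^ (x.2.2 : ℕ) := by
    intro x
    simp [u, p, t]
  have hvφ : ∀ v : HeightOneSpectrum (𝓞 K), v.valuation K (φ : K) = 1 := by
    intro v
    have h1 : v.valuation K (φ : K) ≤ 1 := v.valuation_le_one φ
    have h4 : v.valuation K ((φ - 1 : 𝓞 K) : K) ≤ 1 := v.valuation_le_one (φ - 1)
    have h6 : v.valuation K (φ : K) * v.valuation K ((φ - 1 : 𝓞 K) : K) = 1 := by
      rw [← map_mul]
      have : (φ : K) * ((φ - 1 : 𝓞 K) : K) = 1 := by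
        have e1 : ((φ * (φ - 1) : 𝓞 K) : K) = ((1 : 𝓞 K) : K) := by
          rw [show φ * (φ - 1) = 1 by linear_combination h]
        simpa using e1
      rw [this, map_one]
    apply le_antisymm h1
    rw [← h6]
    exact mul_le_of_le_one_right' h4
  have hset : {d : Tw K | ∀ v : HeightOneSpectrum (𝓞 K), v.valuation K 2 = 1 →
      ∃ x : K, x ≠ 0 ∧ v.valuation K (x ^ 2 * rp d) = 1} =
      Set.range fun x => (QuotientGroup.mk (u x) : Tw K) := by
    ext d
    constructor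
    · intro hd
      have hδ0 : rp d ≠ 0 := (Quotient.out d : Kˣ).ne_zero
      have hvδ : P.valuation K (rp d) ≠ 0 := (Valuation.ne_zero_iff _).2 hδ0
      -- the case of an even value at two
      have hP2 : P.valuation K 2 = exp (-1 : ℤ) := val_two P hP
      have hall : ∀ v : HeightOneSpectrum (𝓞 K), v.valuation K 2 = 1 ∨ v = P := by
        intro v
        rcases eq_or_lt_of_le (show v.valuation K (2 : K) ≤ 1 by exact_mod_cast nat_le_one 2)
          with hv | hv
        · exact Or.inl hv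
        · right
          have hmem : (2 : 𝓞 K) ∈ v.asIdeal := by
            rw [← v.valuation_lt_one_iff_mem (K := K)]
            exact_mod_cast hv
          have hle : P.asIdeal ≤ v.asIdeal := by
            rw [hP, Ideal.span_singleton_le_iff_mem]
            exact hmem
          apply HeightOneSpectrum.ext
          exact (P.isMaximal.eq_of_le v.isPrime.ne_top hle).symm
      have hcase : ∃ k : Fin 2, ∀ v : HeightOneSpectrum (𝓞 K),
          ∃ x : K, x ≠ 0 ∧ v.valuation K (x ^ 2 * (2 ^ (k : ℕ) * rp d)) = 1 := by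
        obtain ⟨m, hm⟩ : ∃ m : ℤ, P.valuation K (rp d) = exp m := ⟨_, (exp_log hvδ).symm⟩
        rcases Int.even_or_odd' m with ⟨j, hj | hj⟩
        · refine ⟨0, fun v => ?_⟩
          rcases hall v with hv | rfl
          · obtain ⟨x, hx0, hx⟩ := hd v hv
            exact ⟨x, hx0, by simpa using hx⟩
          · refine ⟨2 ^ j, zpow_ne_zero _ two_ne_zero, ?_⟩
            simp only [Fin.val_zero, pow_zero, one_mul]
            rw [map_mul, map_pow, map_zpow₀, hP2, hm, ← exp_zsmul, ← exp_nsmul, ← exp_add,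
              ← exp_zero, exp_inj, hj]
            simp only [nsmul_eq_mul, zsmul_eq_mul, Nat.cast_ofNat]
            push_cast
            ring
        · refine ⟨1, fun v => ?_⟩
          rcases hall v with hv | rfl
          · obtain ⟨x, hx0, hx⟩ := hd v hv
            refine ⟨x, hx0, ?_⟩
            rw [Fin.val_one, pow_one, mul_left_comm, map_mul, hv, one_mul]
            exact hx
          · refine ⟨2 ^ j, zpow_ne_zero _ two_ne_zero, ?_⟩
            rw [Fin.val_one, pow_one, map_mul, map_mul, map_pow, map_zpow₀, hP2, hm, ← exp_zsmul,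
              ← exp_nsmul, ← exp_add, ← exp_add, ← exp_zero, exp_inj, hj]
            simp only [nsmul_eq_mul, zsmul_eq_mul, Nat.cast_ofNat]
            push_cast
            ring
      obtain ⟨k, hk⟩ := hcase
      obtain ⟨e, g, he, hg0, heg⟩ := even_form σ τ hG φ h h2 h3 (2 ^ (k : ℕ) * rp d)
        (mul_ne_zero (pow_ne_zero _ two_ne_zero) hδ0) hk
      have hij : ∃ i j : Fin 2, (e : K) = (-1) ^ (i : ℕ) * (φ : K) ^ (j : ℕ) := by
        rcases he with rfl | rfl | rfl | rfl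
        · exact ⟨0, 0, by simp⟩
        · exact ⟨1, 0, by simp⟩
        · exact ⟨0, 1, by simp⟩
        · exact ⟨1, 1, by simp⟩
      obtain ⟨i, j, hij⟩ := hij
      refine ⟨(i, j, k), ?_⟩
      show (QuotientGroup.mk (u (i, j, k)) : Tw K) = d
      have hd' : d = QuotientGroup.mk (Quotient.out d : Kˣ) := (Quotient.out_eq d).symm
      rw [hd']
      refine mk_eq_of _ _ (g / 2 ^ (k : ℕ)) (div_ne_zero hg0 (pow_ne_zero _ two_ne_zero)) ?_
      rw [hu]
      show rp d = _
      simp only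
      rw [← hij]
      have h2k : (2 : K) ^ (k : ℕ) ≠ 0 := pow_ne_zero _ two_ne_zero
      field_simp
      linear_combination heg
    · rintro ⟨x, rfl⟩ v hv
      obtain ⟨z, hz0, hz⟩ := rp_mk (u x)
      refine ⟨z⁻¹, inv_ne_zero hz0, ?_⟩
      have e1 : z⁻¹ ^ 2 * rp (QuotientGroup.mk (u x) : Tw K) = u x := by
        rw [hz]; field_simp
      show v.valuation K (z⁻¹ ^ 2 * rp (QuotientGroup.mk (u x) : Tw K)) = 1
      rw [e1, hu, map_mul, map_mul, map_pow, map_pow, map_pow, hv, hvφ, Valuation.map_neg, map_one]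
      simp
  have hinj : Function.Injective fun x => (QuotientGroup.mk (u x) : Tw K) := by
    rintro ⟨i, j, k⟩ ⟨i', j', k'⟩ hx
    have hx' : (QuotientGroup.mk (u (i, j, k)) : Tw K) = QuotientGroup.mk (u (i', j', k')) := hx
    rw [QuotientGroup.eq] at hx'
    obtain ⟨z, hz⟩ := hx'
    have hz' : u (i', j', k') = u (i, j, k) * z ^ 2 := by
      rw [show z ^ 2 = (u (i, j, k))⁻¹ * u (i', j', k') from hz]
      group
    have hK : (-1 : K) ^ (i' : ℕ) * (φ : K) ^ (j' : ℕ) * 2 ^ (k' : ℕ) =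
        (-1) ^ (i : ℕ) * (φ : K) ^ (j : ℕ) * 2 ^ (k : ℕ) * (z : K) ^ 2 := by
      have := congrArg (Units.val) hz'
      push_cast at this
      rw [hu, hu] at this
      exact this
    -- the value at two
    have hP2 : P.valuation K 2 = exp (-1 : ℤ) := val_two P hP
    have hk : k = k' := by
      have h1 := congrArg (P.valuation K) hK
      have hvz : P.valuation K (z : K) ≠ 0 := (Valuation.ne_zero_iff _).2 z.ne_zero
      obtain ⟨m, hm⟩ : ∃ m : ℤ, P.valuation K (z : K) = exp m := ⟨_, (exp_log hvz).symm⟩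
      simp only [map_mul, map_pow, Valuation.map_neg, map_one, one_pow, one_mul, hvφ, hP2, hm] at h1
      rw [← exp_nsmul, ← exp_nsmul, ← exp_nsmul, ← exp_add, exp_inj] at h1
      simp only [nsmul_eq_mul, Nat.cast_ofNat] at h1
      have hk1 := k.isLt
      have hk2 := k'.isLt
      apply Fin.ext
      push_cast at h1
      omega
    subst hk
    have hσφ : 0 < σ (φ : K) := by rw [h2]; linarith
    have hτφ : τ (φ : K) < 0 := by rw [h3]; linarith
    have hσz : 0 < (σ (z : K)) ^ 2 := by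
      have : σ (z : K) ≠ 0 := (map_ne_zero σ).2 z.ne_zero
      positivity
    have hτz : 0 < (τ (z : K)) ^ 2 := by
      have : τ (z : K) ≠ 0 := (map_ne_zero τ).2 z.ne_zero
      positivity
    have hK1 : (-1 : K) ^ (i' : ℕ) * (φ : K) ^ (j' : ℕ) = (-1) ^ (i : ℕ) * (φ : K) ^ (j : ℕ) * (z : K) ^ 2 := by
      have h2k : (2 : K) ^ (k : ℕ) ≠ 0 := pow_ne_zero _ two_ne_zero
      apply mul_right_cancel₀ h2k
      rw [hK]; ring
    have e1 := congrArg σ hK1
    have e2 := congrArg τ hK1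
    simp only [map_mul, map_pow, map_neg, map_one] at e1 e2
    have hi : i = i' := by
      have hj1 : 0 < (σ (φ : K)) ^ (j : ℕ) := pow_pos hσφ _
      have hj2 : 0 < (σ (φ : K)) ^ (j' : ℕ) := pow_pos hσφ _
      have hp := mul_pos hj1 hσz
      fin_cases i <;> fin_cases i' <;> first
        | rfl
        | (exfalso; simp at e1; nlinarith)
    subst hi
    have hj : j = j' := by
      have e3 : (τ (φ : K)) ^ (j' : ℕ) = (τ (φ : K)) ^ (j : ℕ) * (τ (z : K)) ^ 2 := by
        have hne : ((-1 : ℝ)) ^ (i : ℕ) ≠ 0 := pow_ne_zero _ (by norm_num)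
        apply mul_left_cancel₀ hne
        rw [e2]; ring
      fin_cases j <;> fin_cases j' <;> first
        | rfl
        | (exfalso; simp at e3; nlinarith)
    subst hj
    rfl
  rw [hset, ← Set.image_univ, Set.ncard_image_of_injective _ hinj, Set.ncard_univ]
  simp [Nat.card_eq_fintype_card]

end Pool.Agent.P8H57.FF
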