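import Pool.Agent.P8H82.FF.Stm2
import Pool.Agent.P8H57.FF.Twg

/-!
# Project FF: package TWC
-/

set_option autoImplicit false

namespace Pool.Agent.P8H57.FF

open NumberField IsDedekindDomain WithZero
open Pool.Agent.P8H82.FF
open Pool.Agent.P8H82.JG (Gold)
open Pool.Agent.Y729.AH (EE Pm AA T2 SemiAt semi_iff mem_AA pm_EE pm_disc mem_T2 max_scale)
open Pool.Agent.H691R3 (fv)
open Pool.Agent.Y729.FW (fv_eq_one_iff)

variable {K : Type} [Field K] [NumberField K]

/-- the parity of the value -/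
theorem even_iff (v : HeightOneSpectrum (𝓞 K)) (x : K) (hx : x ≠ 0) :
    (∃ y : K, y ≠ 0 ∧ v.valuation K (y ^ 2 * x) = 1) ↔ Even (log (v.valuation K x)) := by
  have hvx : v.valuation K x ≠ 0 := (Valuation.ne_zero_iff _).2 hx
  constructor
  · rintro ⟨y, hy0, hy⟩
    have hvy : v.valuation K y ≠ 0 := (Valuation.ne_zero_iff _).2 hy0
    rw [map_mul, map_pow, ← exp_log hvy, ← exp_log hvx, ← exp_nsmul, ← exp_add, ← exp_zero,
      exp_inj] at hy
    simp only [nsmul_eq_mul, Nat.cast_ofNat, log_exp] at hy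
    rw [Int.even_iff]
    omega
  · rintro ⟨m, hm⟩
    obtain ⟨π, hπ⟩ := v.valuation_exists_uniformizer K
    have hπ' : v.valuation K π = exp (-1 : ℤ) := hπ
    have hπ0 : π ≠ 0 := by
      rintro rfl
      rw [map_zero] at hπ'
      exact exp_ne_zero hπ'.symm
    refine ⟨π ^ m, zpow_ne_zero _ hπ0, ?_⟩
    rw [map_mul, map_pow, map_zpow₀, hπ', ← exp_log hvx, hm, ← exp_zsmul, ← exp_nsmul, ← exp_add,
      ← exp_zero, exp_inj]
    simp only [nsmul_eq_mul, zsmul_eq_mul, Nat.cast_ofNat]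
    push_cast
    ring

theorem even_iff' (v : HeightOneSpectrum (𝓞 K)) (x : K) (hx : x ≠ 0) :
    (∃ u : K, u ≠ 0 ∧ fv v x = fv v u ^ 2) ↔ Even (log (v.valuation K x)) := by
  rw [← even_iff v x hx]
  constructor
  · rintro ⟨u, hu0, hu⟩
    refine ⟨u⁻¹, inv_ne_zero hu0, ?_⟩
    have hf : fv v u ≠ 0 := ((fv v).pos hu0).ne'
    rw [← fv_eq_one_iff, map_mul, map_pow, map_inv₀, hu]
    field_simp
  · rintro ⟨y, hy0, hy⟩
    refine ⟨y⁻¹, inv_ne_zero hy0, ?_⟩
    have hf : fv v y ≠ 0 := ((fv v).pos hy0).ne'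
    rw [← fv_eq_one_iff, map_mul, map_pow] at hy
    rw [map_inv₀]
    field_simp
    linarith

theorem log_mul' (v : HeightOneSpectrum (𝓞 K)) (x y : K) (hx : x ≠ 0) (hy : y ≠ 0) :
    log (v.valuation K (x * y)) = log (v.valuation K x) + log (v.valuation K y) := by
  rw [map_mul, log_mul ((Valuation.ne_zero_iff _).2 hx) ((Valuation.ne_zero_iff _).2 hy)]

/-- semistability of the twist -/
theorem semi_twist (v : HeightOneSpectrum (𝓞 K)) (h2 : fv v 2 = 1) (l : K) (hl : l ≠ 0)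
    (hl1 : l ≠ 1) : ∃ m : K, m ≠ 0 ∧ ∀ δ : K, δ ≠ 0 →
      (SemiAt v (EE δ (δ * l)) ↔ Even (log (v.valuation K δ) + log (v.valuation K m))) := by
  have hp : ∀ δ : K, δ ≠ 0 → Pm (EE δ (δ * l)) δ (δ * l) := fun δ hδ =>
    pm_EE hδ (mul_ne_zero hδ hl) (fun h => hl1 (by
      have : δ * 1 = δ * l := by rw [mul_one]; exact h
      exact (mul_left_cancel₀ hδ this).symm))
  have key : ∀ δ : K, δ ≠ 0 → max (fv v δ) (fv v (δ * l)) = fv v δ * max 1 (fv v l) := by
    intro δ hδ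
    rw [map_mul, mul_max_of_nonneg _ _ ((fv v).nonneg δ), mul_one]
  rcases le_total (fv v l) 1 with h | h
  · refine ⟨1, one_ne_zero, fun δ hδ => ?_⟩
    rw [semi_iff v h2 (hp δ hδ), key δ hδ, max_eq_left h, mul_one, even_iff' v δ hδ, map_one]
    simp
  · refine ⟨l, hl, fun δ hδ => ?_⟩
    rw [semi_iff v h2 (hp δ hδ), key δ hδ, max_eq_right h, ← map_mul,
      even_iff' v (δ * l) (mul_ne_zero hδ hl), log_mul' v δ l hδ hl]

theorem bool_aux (D D1 A M E0 : Prop) (h3 : ¬(D ∧ ¬D1 ∨ D1 ∧ ¬D) ↔ E0) (h4 : D1 ↔ ¬M) :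
    (¬(A ↔ M) ↔ D) ↔ (A ↔ E0) := by
  rw [← h3, h4]
  by_cases q1 : D <;> by_cases q3 : A <;> by_cases q4 : M <;> simp [q1, q3, q4]

/-- package TWC -/
theorem twc (hTWG : S_TWG) (hTWE : S_TWE) : S_TWC := by
  classical
  intro K _ _ σ τ hG l D hl hl1 hD
  have hrp : ∀ d : Tw K, rp d ≠ 0 := fun d => (Quotient.out d : Kˣ).ne_zero
  have hne : ∀ δ : K, δ ≠ 0 → (EE δ (δ * l)).Δ ≠ 0 := by
    intro δ hδ
    have hp : Pm (EE δ (δ * l)) δ (δ * l) := pm_EE hδ (mul_ne_zero hδ hl) (fun h => hl1 (by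
      have : δ * 1 = δ * l := by rw [mul_one]; exact h
      exact (mul_left_cancel₀ hδ this).symm))
    rw [(pm_disc hp).1]
    have h3 : δ - δ * l ≠ 0 := sub_ne_zero.2 hp.2.2.1
    have h4 : δ * l ≠ 0 := hp.2.1
    exact mul_ne_zero (by norm_num) (mul_ne_zero (mul_ne_zero (pow_ne_zero 2 hδ) (pow_ne_zero 2 h4))
      (pow_ne_zero 2 h3))
  have hDodd : ∀ v ∈ D, fv v (2 : K) = 1 := by
    intro v hv
    by_contra h
    exact hD v hv ((mem_T2 v).2 h)
  set D1 := AA (EE (1 : K) (1 * l)) with hD1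
  obtain ⟨δ₀, hδ₀, hpar⟩ := hTWE K σ τ hG (symmDiff D D1)
  let c : Tw K := QuotientGroup.mk (Units.mk0 δ₀ hδ₀)
  have hAA : ∀ d : Tw K, AA (crv (l, d)) = D ↔
      ∀ v : HeightOneSpectrum (𝓞 K), v.valuation K 2 = 1 →
        ∃ x : K, x ≠ 0 ∧ v.valuation K (x ^ 2 * rp (d * c)) = 1 := by
    intro d
    -- the representative of the product
    have hrc : ∃ z : K, z ≠ 0 ∧ rp (d * c) = rp d * δ₀ * z ^ 2 := by
      obtain ⟨z, hz0, hz⟩ := rp_mk ((Quotient.out d : Kˣ) * Units.mk0 δ₀ hδ₀)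
      refine ⟨z, hz0, ?_⟩
      have e1 : (QuotientGroup.mk ((Quotient.out d : Kˣ) * Units.mk0 δ₀ hδ₀) : Tw K) = d * c := by
        rw [QuotientGroup.mk_mul]
        congr 1
        exact Quotient.out_eq d
      rw [e1] at hz
      rw [hz]
      push_cast
      rfl
    obtain ⟨z, hz0, hz⟩ := hrc
    have hcr : crv (l, d) = EE (rp d) (rp d * l) := rfl
    have step : ∀ v : HeightOneSpectrum (𝓞 K), v.valuation K 2 = 1 →
        ((v ∈ AA (crv (l, d)) ↔ v ∈ D) ↔
          ∃ x : K, x ≠ 0 ∧ v.valuation K (x ^ 2 * rp (d * c)) = 1) := by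
      intro v hv
      have hv2 : fv v (2 : K) = 1 := (fv_eq_one_iff v 2).2 hv
      obtain ⟨m, hm0, hm⟩ := semi_twist v hv2 l hl hl1
      have h1 := hm 1 one_ne_zero
      have h2 := hm (rp d) (hrp d)
      have h3 := hpar v
      rw [even_iff v δ₀ hδ₀] at h3
      rw [even_iff v _ (hrp _), hz, log_mul' v _ _ (mul_ne_zero (hrp d) hδ₀) (pow_ne_zero _ hz0),
        log_mul' v _ _ (hrp d) hδ₀, hcr, mem_AA (hne _ (hrp d))]
      have h4 : v ∈ D1 ↔ ¬ SemiAt v (EE (1 : K) (1 * l)) ∧ fv v (2 : K) = 1 :=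
        mem_AA (hne 1 one_ne_zero) v
      have h5 : Even (log (v.valuation K (z ^ 2))) := by
        rw [pow_two, log_mul' v z z hz0 hz0]
        exact ⟨_, rfl⟩
      rw [map_one, log_one, zero_add] at h1
      rw [Finset.mem_symmDiff] at h3
      rw [Int.even_add] at h2
      rw [Int.even_add, Int.even_add]
      rw [h2]
      rw [h1] at h4
      rw [iff_true_right h5]
      rw [and_iff_left hv2] at h4 ⊢
      exact bool_aux _ _ _ _ _ h3 h4
    constructor
    · intro h v hv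
      rw [← step v hv, h]
    · intro h
      ext v
      by_cases hv : v.valuation K 2 = 1
      · exact (step v hv).2 (h v hv)
      · have hv2 : fv v (2 : K) ≠ 1 := fun h => hv ((fv_eq_one_iff v 2).1 h)
        constructor
        · intro h6
          rw [hcr, mem_AA (hne _ (hrp d))] at h6
          exact absurd h6.2 hv2
        · intro h6
          exact absurd (hDodd v h6) hv2
  have himg : {d : Tw K | ∀ v : HeightOneSpectrum (𝓞 K), v.valuation K 2 = 1 →
      ∃ x : K, x ≠ 0 ∧ v.valuation K (x ^ 2 * rp d) = 1} =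
      (fun d : Tw K => d * c) '' {d : Tw K | AA (crv (l, d)) = D} := by
    ext d
    constructor
    · intro hd
      refine ⟨d * c⁻¹, ?_, ?_⟩
      · show AA (crv (l, d * c⁻¹)) = D
        rw [hAA, inv_mul_cancel_right]
        exact hd
      · simp
    · rintro ⟨e, he, rfl⟩
      exact (hAA e).1 he
  have hinj : Function.Injective (fun d : Tw K => d * c) := by
    intro a b hab
    have h := congrArg (fun x : Tw K => x * c⁻¹) hab
    simp only [mul_inv_cancel_right] at h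
    exact h
  have h8 := hTWG K σ τ hG
  rw [himg, Set.ncard_image_of_injective _ hinj] at h8
  exact h8

end Pool.Agent.P8H57.FF
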