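import Pool.Agent.P8H82.FF.StmT
import Pool.Agent.P8H71.WS.Glo

/-!
# Project FF: package TWE
-/

set_option autoImplicit false

namespace Pool.Agent.P8H57.FF

open NumberField IsDedekindDomain WithZero
open Pool.Agent.P8H82.FF Pool.Agent.P8H82.JG

variable {K : Type} [Field K] [NumberField K]

/-- membership of a generator of a product of different primes -/
theorem val_prod (D : Finset (HeightOneSpectrum (𝓞 K))) (g : 𝓞 K)
    (hg : Ideal.span {g} = ∏ P ∈ D, P.asIdeal) (v : HeightOneSpectrum (𝓞 K)) :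
    (v ∉ D → v.valuation K (g : K) = 1) ∧ (v ∈ D → v.valuation K (g : K) = exp (-1 : ℤ)) := by
  classical
  have key : ∀ (E : Finset (HeightOneSpectrum (𝓞 K))), v ∉ E → ¬ v.asIdeal ∣ ∏ P ∈ E, P.asIdeal := by
    intro E hE h
    have hpr : Prime v.asIdeal := Ideal.prime_of_isPrime v.ne_bot v.isPrime
    obtain ⟨P, hP, hd⟩ := (Prime.dvd_finsetProd_iff hpr _).1 h
    have hle : P.asIdeal ≤ v.asIdeal := Ideal.le_of_dvd hd
    have : P = v := HeightOneSpectrum.ext (P.isMaximal.eq_of_le v.isPrime.ne_top hle)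
    exact hE (this ▸ hP)
  have hval : v.valuation K (g : K) = v.intValuation g := v.valuation_of_algebraMap g
  constructor
  · intro hv
    rw [hval]
    apply le_antisymm (v.intValuation_le_one g)
    rw [← not_lt, v.intValuation_lt_one_iff_dvd, hg]
    exact key D hv
  · intro hv
    rw [hval]
    have h1 : v.intValuation g ≤ exp (-((1 : ℕ) : ℤ)) := by
      rw [v.intValuation_le_pow_iff_dvd, hg, pow_one]
      exact Finset.dvd_prod_of_mem _ hv
    have h2 : ¬ v.intValuation g ≤ exp (-((2 : ℕ) : ℤ)) := by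
      rw [v.intValuation_le_pow_iff_dvd, hg, ← Finset.mul_prod_erase D _ hv, pow_two]
      intro h
      have h3 := (mul_dvd_mul_iff_left v.ne_bot).1 h
      exact key _ (Finset.notMem_erase v D) h3
    have hg0 : g ≠ 0 := by
      rintro rfl
      apply h2
      rw [map_zero]
      exact zero_le
    have hne : v.intValuation g ≠ 0 := v.intValuation_ne_zero g hg0
    rw [← exp_log hne, exp_le_exp] at h1 h2
    rw [← exp_log hne, exp_inj]
    push_cast at h1 h2
    omega

/-- package TWE -/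
theorem twe : S_TWE := by
  intro K _ _ σ τ hG D
  obtain ⟨s5, hs5⟩ := hG.five
  have := Pool.Agent.Y382.Gold.pid hG.rank hs5
  obtain ⟨g, hg⟩ := (inferInstance : (∏ P ∈ D, P.asIdeal : Ideal (𝓞 K)).IsPrincipal)
  have hg' : Ideal.span {g} = ∏ P ∈ D, P.asIdeal := hg.symm
  have hg0 : g ≠ 0 := by
    rintro rfl
    have h0 : (∏ P ∈ D, P.asIdeal : Ideal (𝓞 K)) = 0 := by
      rw [← hg']; simp
    rw [Finset.prod_eq_zero_iff] at h0
    obtain ⟨P, -, hP⟩ := h0
    exact P.ne_bot hP
  refine ⟨(g : K), Pool.Agent.P8H52.JG.coe_ne hg0, fun v => ?_⟩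
  obtain ⟨h1, h2⟩ := val_prod D g hg' v
  constructor
  · intro hv
    exact ⟨1, one_ne_zero, by rw [one_pow, one_mul]; exact h1 hv⟩
  · rintro ⟨x, hx0, hx⟩ hv
    have hxv : v.valuation K x ≠ 0 := (Valuation.ne_zero_iff _).2 hx0
    rw [map_mul, map_pow, h2 hv, ← exp_log hxv, ← exp_nsmul, ← exp_add, ← exp_zero, exp_inj] at hx
    simp only [nsmul_eq_mul, Nat.cast_ofNat] at hx
    omega

end Pool.Agent.P8H57.FF
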